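import Pool.Agent.H51.MFQ.S1

/-!
# Board mfq: REL

Linear relations over `S(V)` between Poisson commuting elements lift to `U`.
-/

set_option autoImplicit false

open Module MvPolynomial

namespace Pool.MFQ

namespace Rel46

variable {σ τ U ι : Type} [Fintype τ] [Ring U] [Algebra ℂ U]

/-- The half-density lift with the coefficients on the left. -/
theorem th_eq (O : Ore σ τ U) (P : Lm σ τ) :
    O.th P = O.e P.1 + ∑ i, O.e (P.2 i) * O.x i + (2⁻¹ : ℂ) • ∑ i, O.e (O.D i (P.2 i)) := by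
  unfold Ore.th
  have h : ∀ i, O.e (P.2 i) * O.x i + O.x i * O.e (P.2 i) =
      (2 : ℂ) • (O.e (P.2 i) * O.x i) + O.e (O.D i (P.2 i)) := by
    intro i
    rw [← O.hx i (P.2 i), two_smul]
    abel
  rw [Finset.sum_congr rfl fun i _ => h i, Finset.sum_add_distrib, smul_add, ← Finset.smul_sum,
    smul_smul, inv_mul_cancel₀ (two_ne_zero), one_smul, add_assoc]

/-- The product of a coefficient with the lift. -/
theorem e_th (O : Ore σ τ U) (ψ : MvPolynomial σ ℂ) (P : Lm σ τ) :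
    O.e ψ * O.th P = O.e (ψ * P.1) + ∑ i, O.e (ψ * P.2 i) * O.x i +
      (2⁻¹ : ℂ) • ∑ i, O.e (O.D i (ψ * P.2 i)) - (2⁻¹ : ℂ) • O.e (dvG O.D P ψ) := by
  rw [th_eq]
  have h : ∀ i, O.e (O.D i (ψ * P.2 i)) = O.e ψ * O.e (O.D i (P.2 i)) +
      O.e (P.2 i * O.D i ψ) := by
    intro i
    rw [Derivation.leibniz, smul_eq_mul, smul_eq_mul, map_add, map_mul]
  rw [Finset.sum_congr rfl fun i _ => h i, Finset.sum_add_distrib, smul_add]
  unfold dvG
  rw [map_sum, add_sub_assoc, add_sub_cancel_right, mul_add, mul_add, map_mul, Finset.mul_sum,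
    mul_smul_comm, Finset.mul_sum]
  congr 3
  funext i
  rw [map_mul, mul_assoc]

theorem dv_mul (D : τ → Derivation ℂ (MvPolynomial σ ℂ) (MvPolynomial σ ℂ)) (P : Lm σ τ)
    (φ ψ : MvPolynomial σ ℂ) : dvG D P (φ * ψ) = φ * dvG D P ψ + dvG D P φ * ψ := by
  unfold dvG
  rw [Finset.mul_sum, Finset.sum_mul, ← Finset.sum_add_distrib]
  refine Finset.sum_congr rfl fun i _ => ?_
  rw [Derivation.leibniz, smul_eq_mul, smul_eq_mul]
  ring

theorem dv_sum (D : τ → Derivation ℂ (MvPolynomial σ ℂ) (MvPolynomial σ ℂ)) (P : Lm σ τ)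
    {κ : Type} (s : Finset κ) (f : κ → MvPolynomial σ ℂ) :
    dvG D P (∑ a ∈ s, f a) = ∑ a ∈ s, dvG D P (f a) := by
  unfold dvG
  rw [Finset.sum_comm]
  refine Finset.sum_congr rfl fun i _ => ?_
  rw [map_sum, Finset.mul_sum]

/-- The second part of the bracket. -/
noncomputable def bk (D : τ → Derivation ℂ (MvPolynomial σ ℂ) (MvPolynomial σ ℂ))
    (c : τ → τ → τ → ℂ) (P : Lm σ τ) (Q : τ → MvPolynomial σ ℂ) (k : τ) : MvPolynomial σ ℂ :=
  ∑ i, ∑ j, c i j k • (P.2 i * Q j) + dvG D P (Q k) - ∑ i, Q i * D i (P.2 k)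

theorem bk_eq (D : τ → Derivation ℂ (MvPolynomial σ ℂ) (MvPolynomial σ ℂ))
    (c : τ → τ → τ → ℂ) (β : τ → τ → MvPolynomial σ ℂ) (P Q : Lm σ τ) (k : τ) :
    (brG D c β P Q).2 k = bk D c P Q.2 k := rfl

theorem bk_smul (D : τ → Derivation ℂ (MvPolynomial σ ℂ) (MvPolynomial σ ℂ))
    (c : τ → τ → τ → ℂ) (P : Lm σ τ) (φ : MvPolynomial σ ℂ) (Q : τ → MvPolynomial σ ℂ) (k : τ) :
    bk D c P (fun i => φ * Q i) k = φ * bk D c P Q k + dvG D P φ * Q k := by
  unfold bk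
  rw [dv_mul, mul_sub, mul_add, Finset.mul_sum, Finset.mul_sum]
  have h1 : ∑ i, ∑ j, c i j k • (P.2 i * (φ * Q j)) =
      ∑ i, φ * ∑ j, c i j k • (P.2 i * Q j) := by
    refine Finset.sum_congr rfl fun i _ => ?_
    rw [Finset.mul_sum]
    refine Finset.sum_congr rfl fun j _ => ?_
    rw [mul_smul_comm]
    congr 1
    ring
  have h2 : ∑ i, φ * Q i * D i (P.2 k) = ∑ i, φ * (Q i * D i (P.2 k)) :=
    Finset.sum_congr rfl fun i _ => by ring
  rw [h1, h2]
  ring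

theorem bk_sum (D : τ → Derivation ℂ (MvPolynomial σ ℂ) (MvPolynomial σ ℂ))
    (c : τ → τ → τ → ℂ) (P : Lm σ τ) {κ : Type} (s : Finset κ)
    (Q : κ → τ → MvPolynomial σ ℂ) (k : τ) :
    bk D c P (fun i => ∑ a ∈ s, Q a i) k = ∑ a ∈ s, bk D c P (Q a) k := by
  unfold bk
  have h1 : ∑ i, ∑ j, c i j k • (P.2 i * ∑ a ∈ s, Q a j) =
      ∑ a ∈ s, ∑ i, ∑ j, c i j k • (P.2 i * Q a j) := by
    have h2 : ∀ i j, c i j k • (P.2 i * ∑ a ∈ s, Q a j) =
        ∑ a ∈ s, c i j k • (P.2 i * Q a j) := by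
      intro i j
      rw [Finset.mul_sum, Finset.smul_sum]
    simp only [h2]
    rw [Finset.sum_comm' (s := s) (t := fun _ => Finset.univ) (t' := Finset.univ)
      (s' := fun _ => s) (by simp)]
    exact Finset.sum_congr rfl fun i _ => Finset.sum_comm
  have h3 : ∑ i, (∑ a ∈ s, Q a i) * D i (P.2 k) = ∑ a ∈ s, ∑ i, Q a i * D i (P.2 k) := by
    rw [Finset.sum_comm]
    exact Finset.sum_congr rfl fun i _ => Finset.sum_mul _ _ _
  rw [h1, h3, dv_sum, Finset.sum_sub_distrib, Finset.sum_add_distrib]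

end Rel46

open Rel46 in
/-- REL. -/
theorem t_rel : RELStmt := by
  intro σ τ U ι _ _ _ O _ P R c ψ ψ₀ hli hPP hPR hc h2 h1
  have hR : ∀ (a : ι) (k : τ), dvG O.D (P a) c * R.2 k = ∑ b, dvG O.D (P a) (ψ b) * (P b).2 k := by
    intro a k
    have e1 : bk O.D O.c (P a) (fun i => c * R.2 i) k = dvG O.D (P a) c * R.2 k := by
      rw [bk_smul, ← bk_eq O.D O.c O.β, hPR a]
      simp
    have e2 : bk O.D O.c (P a) (fun i => ∑ b, ψ b * (P b).2 i) k =
        ∑ b, dvG O.D (P a) (ψ b) * (P b).2 k := by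
      rw [bk_sum]
      refine Finset.sum_congr rfl fun b _ => ?_
      rw [bk_smul, ← bk_eq O.D O.c O.β, hPP a b]
      simp
    have e3 : (fun i => c * R.2 i) = fun i => ∑ b, ψ b * (P b).2 i := funext fun i => h2 i
    rw [← e1, ← e2, e3]
  have hab : ∀ a b, dvG O.D (P a) c * ψ b = c * dvG O.D (P a) (ψ b) := by
    intro a
    have h3 : ∑ b, (dvG O.D (P a) c * ψ b - c * dvG O.D (P a) (ψ b)) • (P b).2 =
        (0 : τ → MvPolynomial σ ℂ) := by
      funext k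
      rw [Finset.sum_apply]
      simp only [Pi.smul_apply, smul_eq_mul, Pi.zero_apply, sub_mul, Finset.sum_sub_distrib]
      have h4 : ∑ b, dvG O.D (P a) c * ψ b * (P b).2 k =
          dvG O.D (P a) c * ∑ b, ψ b * (P b).2 k := by
        rw [Finset.mul_sum]
        exact Finset.sum_congr rfl fun b _ => by ring
      have h5 : ∑ b, c * dvG O.D (P a) (ψ b) * (P b).2 k =
          c * ∑ b, dvG O.D (P a) (ψ b) * (P b).2 k := by
        rw [Finset.mul_sum]
        exact Finset.sum_congr rfl fun b _ => by ring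
      rw [h4, h5, ← h2, ← hR]
      ring
    intro b
    have h6 := Fintype.linearIndependent_iff.1 hli _ h3 b
    exact sub_eq_zero.1 h6
  have hsum : ∑ a, dvG O.D (P a) (ψ a) = dvG O.D R c := by
    apply mul_left_cancel₀ hc
    rw [Finset.mul_sum, Finset.sum_congr rfl fun a _ => (hab a a).symm]
    unfold dvG
    rw [Finset.mul_sum]
    have h3 : ∀ i, c * (R.2 i * O.D i c) = ∑ a, ψ a * (P a).2 i * O.D i c := by
      intro i
      rw [← mul_assoc, h2 i, Finset.sum_mul]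
    rw [Finset.sum_congr rfl fun i _ => h3 i, Finset.sum_comm]
    refine Finset.sum_congr rfl fun a _ => ?_
    rw [Finset.sum_mul]
    exact Finset.sum_congr rfl fun i _ => by ring
  rw [e_th, h1]
  have h3 : ∀ a, O.e (ψ a) * O.th (P a) = O.e (ψ a * (P a).1) +
      ∑ i, O.e (ψ a * (P a).2 i) * O.x i + (2⁻¹ : ℂ) • ∑ i, O.e (O.D i (ψ a * (P a).2 i)) -
      (2⁻¹ : ℂ) • O.e (dvG O.D (P a) (ψ a)) := fun a => e_th O _ _
  rw [Finset.sum_congr rfl fun a _ => h3 a, Finset.sum_sub_distrib, Finset.sum_add_distrib,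
    Finset.sum_add_distrib, ← Finset.smul_sum, ← Finset.smul_sum, ← map_sum O.e (fun a =>
    dvG O.D (P a) (ψ a)), hsum, map_add, map_sum]
  have h4 : ∑ i, O.e (c * R.2 i) * O.x i = ∑ a, ∑ i, O.e (ψ a * (P a).2 i) * O.x i := by
    rw [Finset.sum_comm]
    refine Finset.sum_congr rfl fun i _ => ?_
    rw [h2 i, map_sum, Finset.sum_mul]
  have h5 : ∑ i, O.e (O.D i (c * R.2 i)) = ∑ a, ∑ i, O.e (O.D i (ψ a * (P a).2 i)) := by
    rw [Finset.sum_comm]
    refine Finset.sum_congr rfl fun i _ => ?_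
    rw [h2 i, map_sum, map_sum]
  rw [h4, h5]
  abel

end Pool.MFQ
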